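import Mathlib

/-!
# First-Fit on chordal graphs can use a constant times `omega * log n` colours

The examples are binomial trees in which every vertex is replaced by a clique on `k / 2` vertices
(plus a disjoint complete graph on `k` vertices, which fixes the clique number at `k`).
-/

set_option autoImplicit false

namespace Pool.Agent.Results.MP_4aa424_co.BlownUpBinomial

open Finset

/-- Every cycle of length at least four has a chord.  Cycles of length `m` in `G` are injective
homomorphisms from `SimpleGraph.cycleGraph m`. -/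
def Chordal {V : Type*} (G : SimpleGraph V) : Prop :=
  ∀ m : ℕ, 4 ≤ m → ∀ f : SimpleGraph.cycleGraph m →g G, Function.Injective f →
    ∃ i j : Fin m, i ≠ j ∧ ¬ (SimpleGraph.cycleGraph m).Adj i j ∧ G.Adj (f i) (f j)

/-- `c` is the colouring First-Fit produces when the vertices of `G` arrive in the order
`e 0, e 1, e 2, ...`: each vertex receives the least positive integer that is not already used on
one of its earlier neighbours. -/
def IsFirstFit {V : Type*} [Fintype V] (G : SimpleGraph V) (e : Fin (Fintype.card V) ≃ V)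
    (c : V → ℕ) : Prop :=
  ∀ s, IsLeast {a : ℕ | 1 ≤ a ∧ ∀ r, r < s → G.Adj (e r) (e s) → c (e r) ≠ a} (c (e s))

/-- The First-Fit chromatic number: the largest number of colours First-Fit uses on `G`, over all
orderings of the vertices. -/
noncomputable def firstFitNumber {V : Type*} [Fintype V] (G : SimpleGraph V) : ℕ :=
  sSup {t : ℕ | ∃ (e : Fin (Fintype.card V) ≃ V) (c : V → ℕ),
    IsFirstFit G e c ∧ t = (Finset.univ.image c).card}

theorem le_firstFitNumber {V : Type*} [Fintype V] (G : SimpleGraph V) (c : V → ℕ)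
    (h1 : ∀ v, 1 ≤ c v) (hp : ∀ u v, G.Adj u v → c u ≠ c v)
    (hg : ∀ v a, 1 ≤ a → a < c v → ∃ u, G.Adj u v ∧ c u = a) :
    (Finset.univ.image c).card ≤ firstFitNumber G := by
  classical
  let e0 : Fin (Fintype.card V) ≃ V := (Fintype.equivFin V).symm
  let σ := Tuple.sort (c ∘ e0)
  have hmono : Monotone ((c ∘ e0) ∘ σ) := Tuple.monotone_sort _
  let e : Fin (Fintype.card V) ≃ V := σ.trans e0
  have hff : IsFirstFit G e c := by
    intro s
    refine ⟨⟨h1 _, fun r hr hadj => hp _ _ hadj⟩, ?_⟩
    rintro a ⟨ha1, ha⟩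
    by_contra hlt
    push Not at hlt
    obtain ⟨u, hu, hua⟩ := hg (e s) a ha1 hlt
    have hr : e.symm u < s := by
      by_contra hge
      push Not at hge
      have := hmono hge
      simp only [Function.comp] at this
      have h2 : c (e (e.symm u)) = c u := by rw [Equiv.apply_symm_apply]
      have h3 : c (e0 (σ (e.symm u))) = c (e (e.symm u)) := rfl
      have h4 : c (e0 (σ s)) = c (e s) := rfl
      omega
    refine ha (e.symm u) hr ?_ ?_
    · rw [Equiv.apply_symm_apply]; exact hu
    · rw [Equiv.apply_symm_apply]; exact hua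
  refine le_csSup ⟨Fintype.card V, ?_⟩ ⟨e, c, hff, rfl⟩
  rintro t ⟨e, c, -, rfl⟩
  exact (Finset.card_image_le).trans (by simp)

/-- `B` is a child of `A` in the binomial tree on the subsets of `Fin m`. -/
def Child {m : ℕ} (A B : Finset (Fin m)) : Prop := ∃ j : Fin m, (∀ i ∈ A, j < i) ∧ B = insert j A

theorem Child.card {m : ℕ} {A B : Finset (Fin m)} (h : Child A B) : B.card = A.card + 1 := by
  obtain ⟨j, hj, rfl⟩ := h
  rw [Finset.card_insert_of_notMem]
  intro hmem
  exact lt_irrefl _ (hj j hmem)

theorem Child.unique {m : ℕ} {A A' B : Finset (Fin m)} (h : Child A B) (h' : Child A' B) :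
    A = A' := by
  obtain ⟨j, hj, rfl⟩ := h
  obtain ⟨j', hj', h⟩ := h'
  have hjA : j ∉ A := fun hmem => lt_irrefl _ (hj j hmem)
  have hjA' : j' ∉ A' := fun hmem => lt_irrefl _ (hj' j' hmem)
  have hjj : j = j' := by
    have h1 : j ∈ insert j' A' := by rw [← h]; exact Finset.mem_insert_self _ _
    have h2 : j' ∈ insert j A := by rw [h]; exact Finset.mem_insert_self _ _
    rcases Finset.mem_insert.1 h1 with h1 | h1
    · exact h1
    · rcases Finset.mem_insert.1 h2 with h2 | h2
      · exact h2.symm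
      · exact absurd ((hj' j h1).trans (hj j' h2)) (lt_irrefl _)
  subst hjj
  rw [← Finset.erase_insert hjA, h, Finset.erase_insert hjA']

/-- The examples. -/
def Gr (m s k : ℕ) : SimpleGraph ((Finset (Fin m) × Fin s) ⊕ Fin k) where
  Adj x y := match x, y with
    | .inl p, .inl q => (p.1 = q.1 ∧ p.2 ≠ q.2) ∨ Child p.1 q.1 ∨ Child q.1 p.1
    | .inr a, .inr b => a ≠ b
    | _, _ => False
  symm := ⟨by
    rintro (p | a) (q | b) h
    · rcases h with h | h | h
      · exact Or.inl ⟨h.1.symm, h.2.symm⟩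
      · exact Or.inr (Or.inr h)
      · exact Or.inr (Or.inl h)
    · exact h
    · exact h
    · exact Ne.symm h⟩
  loopless := ⟨by
    rintro (p | a) h
    · rcases h with h | h | h
      · exact h.2 rfl
      · have := h.card; omega
      · have := h.card; omega
    · exact h rfl⟩

/-- The depth in the tree. -/
def depth {m s k : ℕ} : ((Finset (Fin m) × Fin s) ⊕ Fin k) → ℕ
  | .inl p => p.1.card
  | .inr _ => 0

theorem adj_of_adj {m s k : ℕ} {x y z : (Finset (Fin m) × Fin s) ⊕ Fin k}
    (hy : (Gr m s k).Adj x y) (hz : (Gr m s k).Adj x z) (hyx : depth y ≤ depth x)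
    (hzx : depth z ≤ depth x) (hyz : y ≠ z) : (Gr m s k).Adj y z := by
  rcases x with ⟨A, a⟩ | a <;> rcases y with ⟨B, b⟩ | b <;> rcases z with ⟨C, c⟩ | c <;>
    simp only [Gr, depth] at hy hz hyx hzx ⊢
  · have hB : (A = B ∧ a ≠ b) ∨ Child B A := by
      rcases hy with h | h | h
      · exact Or.inl h
      · have := h.card; omega
      · exact Or.inr h
    have hC : (A = C ∧ a ≠ c) ∨ Child C A := by
      rcases hz with h | h | h
      · exact Or.inl h
      · have := h.card; omega
      · exact Or.inr h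
    rcases hB with hB | hB <;> rcases hC with hC | hC
    · left
      refine ⟨hB.1.symm.trans hC.1, fun hbc => hyz ?_⟩
      rw [← hB.1, ← hC.1, hbc]
    · right; right; rw [← hB.1]; exact hC
    · right; left; rw [← hC.1]; exact hB
    · left
      have := hB.unique hC
      refine ⟨this, fun hbc => hyz ?_⟩
      rw [this, hbc]
  · exact fun h => hyz (by rw [h])

theorem fin_sub_one {n : ℕ} (i : Fin (n + 4)) : i + 1 - (i - 1) = 1 + 1 := by abel

theorem fin_sub_two {n : ℕ} (i : Fin (n + 4)) : i - 1 - (i + 1) = -(1 + 1) := by abel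

theorem fin_val_one {n : ℕ} : ((1 : Fin (n + 4)) : ℕ) = 1 := by
  show 1 % (n + 4) = 1
  exact Nat.mod_eq_of_lt (by omega)

theorem fin_val_two {n : ℕ} : ((1 + 1 : Fin (n + 4)) : ℕ) = 2 := by
  rw [Fin.val_add, fin_val_one]
  exact Nat.mod_eq_of_lt (by omega)

theorem fin_val_three {n : ℕ} : ((1 + (1 + 1) : Fin (n + 4)) : ℕ) = 3 := by
  rw [Fin.val_add, fin_val_two, fin_val_one]
  exact Nat.mod_eq_of_lt (by omega)

theorem chordal_Gr (m s k : ℕ) : Chordal (Gr m s k) := by
  intro n hn f hf
  obtain ⟨n, rfl⟩ : ∃ n', n = n' + 4 := ⟨n - 4, by omega⟩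
  obtain ⟨i, hi⟩ := Finite.exists_max (fun i : Fin (n + 4) => depth (f i))
  have h1 : (SimpleGraph.cycleGraph (n + 4)).Adj i (i + 1) := by
    rw [SimpleGraph.cycleGraph_adj]; right; simp
  have h2 : (SimpleGraph.cycleGraph (n + 4)).Adj i (i - 1) := by
    rw [SimpleGraph.cycleGraph_adj]; left; simp
  have hne : i + 1 ≠ i - 1 := by
    intro h
    have h' : (1 + 1 : Fin (n + 4)) = 0 := by
      rw [← fin_sub_one i, h, sub_self]
    have := congrArg Fin.val h'
    rw [fin_val_two] at this
    simp at this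
  refine ⟨i + 1, i - 1, hne, ?_, ?_⟩
  · rw [SimpleGraph.cycleGraph_adj]
    rintro (h | h)
    · rw [fin_sub_one] at h
      have := congrArg Fin.val h
      rw [fin_val_two, fin_val_one] at this
      omega
    · rw [fin_sub_two] at h
      have h4 : (1 + (1 + 1) : Fin (n + 4)) = 0 := by
        calc (1 + (1 + 1) : Fin (n + 4)) = -(1 + 1) + (1 + 1) := by rw [h]
          _ = 0 := neg_add_cancel _
      have := congrArg Fin.val h4
      rw [fin_val_three] at this
      simp at this
  · exact adj_of_adj (f.map_adj h1) (f.map_adj h2) (hi _) (hi _) (fun h => hne (hf h))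

theorem card_le_of_isClique {m s k : ℕ} (T : Finset ((Finset (Fin m) × Fin s) ⊕ Fin k))
    (hT : (Gr m s k).IsClique T) : T.card ≤ max (2 * s) k := by
  classical
  rcases T.eq_empty_or_nonempty with rfl | hne
  · simp
  obtain ⟨x, hx, hmax⟩ := T.exists_max_image depth hne
  rcases x with ⟨A, a⟩ | a
  · refine le_trans ?_ (le_max_left _ _)
    have key : ∀ y ∈ T, ∃ B b, y = Sum.inl (B, b) ∧ (B = A ∨ Child B A) := by
      intro y hy
      by_cases hxy : y = Sum.inl (A, a)
      · exact ⟨A, a, hxy, Or.inl rfl⟩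
      have hadj := hT hy hx hxy
      have hd := hmax y hy
      rcases y with ⟨B, b⟩ | b
      · refine ⟨B, b, rfl, ?_⟩
        simp only [Gr, depth] at hadj hd
        rcases hadj with h | h | h
        · exact Or.inl h.1
        · exact Or.inr h
        · have := h.card; omega
      · exact absurd hadj (by simp [Gr])
    let φ : ((Finset (Fin m) × Fin s) ⊕ Fin k) → Bool × Fin s := fun y =>
      match y with
      | .inl p => (decide (p.1 = A), p.2)
      | .inr _ => (true, a)
    have hcard : T.card ≤ (Finset.univ : Finset (Bool × Fin s)).card := by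
      refine Finset.card_le_card_of_injOn φ (fun _ _ => Finset.mem_univ _) ?_
      intro y hy z hz hyz
      obtain ⟨B, b, rfl, hB⟩ := key y hy
      obtain ⟨C, c, rfl, hC⟩ := key z hz
      simp only [φ, Prod.mk.injEq] at hyz
      obtain ⟨hBC, hbc⟩ := hyz
      have hBC' : B = A ↔ C = A := by
        constructor
        · intro h
          by_contra h'
          simp [h, h'] at hBC
        · intro h
          by_contra h'
          simp [h, h'] at hBC
      have : B = C := by
        by_cases h : B = A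
        · rw [h, hBC'.1 h]
        · exact (hB.resolve_left h).unique (hC.resolve_left (fun h' => h (hBC'.2 h')))
      rw [this, hbc]
    simpa [Fintype.card_prod] using hcard
  · refine le_trans ?_ (le_max_right _ _)
    have key : ∀ y ∈ T, ∃ b, y = Sum.inr b := by
      intro y hy
      by_cases hxy : y = Sum.inr a
      · exact ⟨a, hxy⟩
      have hadj := hT hy hx hxy
      rcases y with ⟨B, b⟩ | b
      · exact absurd hadj (by simp [Gr])
      · exact ⟨b, rfl⟩
    have hsub : T ⊆ Finset.univ.image (Sum.inr : Fin k → (Finset (Fin m) × Fin s) ⊕ Fin k) := by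
      intro y hy
      obtain ⟨b, rfl⟩ := key y hy
      exact Finset.mem_image_of_mem _ (Finset.mem_univ _)
    refine (Finset.card_le_card hsub).trans (Finset.card_image_le.trans ?_)
    simp

theorem cliqueNum_Gr {m s k : ℕ} (h : 2 * s ≤ k) : (Gr m s k).cliqueNum = k := by
  classical
  apply le_antisymm
  · obtain ⟨T, hT⟩ := (Gr m s k).exists_isNClique_cliqueNum
    have := card_le_of_isClique T hT.isClique
    rw [hT.card_eq, max_eq_right h] at this
    exact this
  · have hcl : (Gr m s k).IsClique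
        ((Finset.univ.map ⟨Sum.inr, Sum.inr_injective⟩ :
          Finset ((Finset (Fin m) × Fin s) ⊕ Fin k)) : Set _) := by
      intro x hx y hy hxy
      simp only [Finset.coe_map, Function.Embedding.coeFn_mk, Finset.coe_univ, Set.image_univ,
        Set.mem_range] at hx hy
      obtain ⟨a, rfl⟩ := hx
      obtain ⟨b, rfl⟩ := hy
      show a ≠ b
      exact fun hab => hxy (by rw [hab])
    have := hcl.card_le_cliqueNum
    simpa using this

/-- The number of children of `A` in the binomial tree. -/
def rk {m : ℕ} (A : Finset (Fin m)) : ℕ := (Finset.univ.filter (fun j : Fin m => ∀ i ∈ A, j < i)).card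

theorem rk_empty {m : ℕ} : rk (∅ : Finset (Fin m)) = m := by
  simp [rk]

theorem rk_lt {m : ℕ} {A B : Finset (Fin m)} (h : Child A B) : rk B < rk A := by
  obtain ⟨j, hj, rfl⟩ := h
  apply Finset.card_lt_card
  rw [Finset.ssubset_iff_of_subset]
  · exact ⟨j, by simpa using hj, by simp⟩
  · intro i hi
    simp only [Finset.mem_filter, Finset.mem_univ, true_and] at hi ⊢
    exact fun l hl => hi l (Finset.mem_insert_of_mem hl)

theorem exists_child {m : ℕ} {A : Finset (Fin m)} {q : ℕ} (hq : q < rk A) :
    ∃ B, Child A B ∧ rk B = q := by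
  have hqm : q < m := by
    refine hq.trans_le ?_
    refine (Finset.card_le_univ _).trans ?_
    simp
  have hmem : ∀ i ∈ A, (⟨q, hqm⟩ : Fin m) < i := by
    by_contra hcon
    push Not at hcon
    obtain ⟨i, hiA, hi⟩ := hcon
    have hle : rk A ≤ (Finset.Iio i).card := by
      apply Finset.card_le_card
      intro j hj
      simp only [Finset.mem_filter, Finset.mem_univ, true_and] at hj
      exact Finset.mem_Iio.2 (hj i hiA)
    rw [Fin.card_Iio] at hle
    have : (i : ℕ) ≤ q := hi
    omega
  refine ⟨insert ⟨q, hqm⟩ A, ⟨⟨q, hqm⟩, hmem, rfl⟩, ?_⟩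
  have : (Finset.univ.filter (fun j : Fin m => ∀ i ∈ insert (⟨q, hqm⟩ : Fin m) A, j < i)) =
      Finset.Iio ⟨q, hqm⟩ := by
    ext j
    simp only [Finset.mem_filter, Finset.mem_univ, true_and, Finset.mem_Iio, Finset.mem_insert,
      forall_eq_or_imp]
    exact ⟨fun h => h.1, fun h => ⟨h, fun i hi => h.trans (hmem i hi)⟩⟩
  rw [rk, this, Fin.card_Iio]

/-- The colouring. -/
def col {m s k : ℕ} : ((Finset (Fin m) × Fin s) ⊕ Fin k) → ℕ
  | .inl p => rk p.1 * s + p.2 + 1
  | .inr x => x + 1

theorem col_lt {m s k : ℕ} {A B : Finset (Fin m)} (h : Child A B) (a b : Fin s) :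
    col (k := k) (.inl (B, b)) < col (k := k) (.inl (A, a)) := by
  have h1 : rk B + 1 ≤ rk A := rk_lt h
  have h2 : (rk B + 1) * s ≤ rk A * s := Nat.mul_le_mul_right _ h1
  have h3 := b.2
  simp only [col]
  nlinarith

theorem col_proper {m s k : ℕ} (u v : (Finset (Fin m) × Fin s) ⊕ Fin k)
    (h : (Gr m s k).Adj u v) : col u ≠ col v := by
  rcases u with ⟨A, a⟩ | a <;> rcases v with ⟨B, b⟩ | b
  · rcases h with h | h | h
    · intro hc
      obtain ⟨hAB, hab⟩ := h
      simp only at hAB hab
      subst hAB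
      simp only [col] at hc
      exact hab (Fin.ext (by omega))
    · exact (col_lt h a b).ne'
    · exact (col_lt h b a).ne
  · exact h.elim
  · exact h.elim
  · intro hc
    simp only [col] at hc
    exact h (Fin.ext (by omega))

theorem col_grundy {m s k : ℕ} (v : (Finset (Fin m) × Fin s) ⊕ Fin k) (t : ℕ) (h1 : 1 ≤ t)
    (ht : t < col v) : ∃ u, (Gr m s k).Adj u v ∧ col u = t := by
  rcases v with ⟨A, a⟩ | a
  · simp only [col] at ht
    have hs : 0 < s := a.pos
    by_cases h : t ≤ rk A * s
    · have hq : (t - 1) / s < rk A := by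
        rw [Nat.div_lt_iff_lt_mul hs]
        omega
      obtain ⟨B, hB, hrk⟩ := exists_child hq
      refine ⟨.inl (B, ⟨(t - 1) % s, Nat.mod_lt _ hs⟩), Or.inr (Or.inr hB), ?_⟩
      simp only [col]
      rw [hrk]
      have := Nat.div_add_mod (t - 1) s
      rw [mul_comm] at this
      omega
    · refine ⟨.inl (A, ⟨t - 1 - rk A * s, by have := a.2; omega⟩), Or.inl ⟨rfl, ?_⟩, ?_⟩
      · intro hc
        have := congrArg Fin.val hc
        simp only at this
        omega
      · simp only [col]
        omega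
  · simp only [col] at ht
    refine ⟨.inr ⟨t - 1, by have := a.2; omega⟩, ?_, ?_⟩
    · show _ ≠ a
      intro hc
      have := congrArg Fin.val hc
      simp only at this
      omega
    · simp only [col]
      omega

theorem le_firstFit_Gr {m s k : ℕ} (hs : 0 < s) : (m + 1) * s ≤ firstFitNumber (Gr m s k) := by
  classical
  refine le_trans ?_ (le_firstFitNumber (Gr m s k) col ?_ col_proper col_grundy)
  · have hsub : Finset.Icc 1 ((m + 1) * s) ⊆ Finset.univ.image (col (m := m) (s := s) (k := k)) := by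
      intro t ht
      rw [Finset.mem_Icc] at ht
      have htop : col (m := m) (s := s) (k := k) (.inl (∅, ⟨s - 1, by omega⟩)) = (m + 1) * s := by
        simp only [col, rk_empty]
        have : (m + 1) * s = m * s + s := by ring
        omega
      rcases ht.2.lt_or_eq with h | h
      · rw [← htop] at h
        obtain ⟨u, -, hu⟩ := col_grundy _ t ht.1 h
        exact Finset.mem_image.2 ⟨u, Finset.mem_univ _, hu⟩
      · exact Finset.mem_image.2 ⟨_, Finset.mem_univ _, htop.trans h.symm⟩
    have := Finset.card_le_card hsub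
    simpa using this
  · rintro (⟨A, a⟩ | a) <;> simp [col]

/-- There is an absolute constant `c > 0` such that for every `k ≥ 2` and every `N` there is a
chordal graph `G` with clique number `k` and at least `N` vertices on which First-Fit can use at
least `c * k * log n` colours, `n` being the number of vertices. -/
theorem result : ∃ c : ℝ, 0 < c ∧ ∀ k : ℕ, 2 ≤ k → ∀ N : ℕ,
    ∃ (V : Type) (_ : Fintype V) (G : SimpleGraph V), Chordal G ∧ G.cliqueNum = k ∧
      N ≤ Fintype.card V ∧
      c * k * Real.log (Fintype.card V) ≤ firstFitNumber G := by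
  refine ⟨1 / 6, by norm_num, fun k hk N => ?_⟩
  obtain ⟨m, hmN, hmk⟩ : ∃ m : ℕ, N ≤ m ∧ k ≤ m := ⟨max N k, le_max_left _ _, le_max_right _ _⟩
  have hs : 0 < k / 2 := by omega
  have hcard : Fintype.card ((Finset (Fin m) × Fin (k / 2)) ⊕ Fin k) = 2 ^ m * (k / 2) + k := by
    simp [Fintype.card_sum, Fintype.card_prod, Fintype.card_finset]
  have hm2 : m < 2 ^ m := Nat.lt_two_pow_self
  refine ⟨(Finset (Fin m) × Fin (k / 2)) ⊕ Fin k, inferInstance, Gr m (k / 2) k,
    chordal_Gr _ _ _, cliqueNum_Gr (by omega), ?_, ?_⟩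
  · rw [hcard]
    have : 2 ^ m * 1 ≤ 2 ^ m * (k / 2) := Nat.mul_le_mul_left _ hs
    omega
  · have hff := le_firstFit_Gr (m := m) (s := k / 2) (k := k) hs
    rw [hcard]
    have hup : (2 ^ m * (k / 2) + k : ℕ) ≤ 2 ^ (2 * (m + 1)) := by
      have h1 : 2 ^ m * (k / 2) ≤ 2 ^ m * 2 ^ m := Nat.mul_le_mul_left _ (by omega)
      have h2 : k ≤ 2 ^ m * 2 ^ m := by nlinarith
      have h3 : 2 ^ (2 * (m + 1)) = 4 * (2 ^ m * 2 ^ m) := by ring
      omega
    have hlog : Real.log ((2 ^ m * (k / 2) + k : ℕ) : ℝ) ≤ 2 * (m + 1) := by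
      have hpos : (0 : ℝ) < ((2 ^ m * (k / 2) + k : ℕ) : ℝ) := by
        have : 0 < 2 ^ m * (k / 2) + k := by omega
        exact_mod_cast this
      have h1 : Real.log ((2 ^ m * (k / 2) + k : ℕ) : ℝ) ≤ Real.log ((2 : ℝ) ^ (2 * (m + 1))) := by
        apply Real.log_le_log hpos
        exact_mod_cast hup
      rw [Real.log_pow] at h1
      have h2 : Real.log 2 ≤ 1 := by
        have := Real.log_two_lt_d9
        linarith
      have h3 : ((2 * (m + 1) : ℕ) : ℝ) * Real.log 2 ≤ ((2 * (m + 1) : ℕ) : ℝ) * 1 :=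
        mul_le_mul_of_nonneg_left h2 (by positivity)
      have h4 : ((2 * (m + 1) : ℕ) : ℝ) = 2 * (m + 1) := by push_cast; ring
      rw [h4] at h1 h3
      linarith
    have hk3 : (k : ℝ) ≤ 3 * ((k / 2 : ℕ) : ℝ) := by
      have : k ≤ 3 * (k / 2) := by omega
      exact_mod_cast this
    have hff' : ((m : ℝ) + 1) * ((k / 2 : ℕ) : ℝ) ≤ (firstFitNumber (Gr m (k / 2) k) : ℝ) := by
      exact_mod_cast hff
    have hk0 : (0 : ℝ) ≤ k := Nat.cast_nonneg _
    have hm0 : (0 : ℝ) ≤ (m : ℝ) + 1 := by positivity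
    calc 1 / 6 * (k : ℝ) * Real.log ((2 ^ m * (k / 2) + k : ℕ) : ℝ)
        ≤ 1 / 6 * (k : ℝ) * (2 * (m + 1)) := by
          apply mul_le_mul_of_nonneg_left hlog (by positivity)
      _ = (k : ℝ) * ((m + 1) / 3) := by ring
      _ ≤ 3 * ((k / 2 : ℕ) : ℝ) * ((m + 1) / 3) := by
          apply mul_le_mul_of_nonneg_right hk3 (by positivity)
      _ = ((m : ℝ) + 1) * ((k / 2 : ℕ) : ℝ) := by ring
      _ ≤ _ := hff'

end Pool.Agent.Results.MP_4aa424_co.BlownUpBinomial
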